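import Pool.Agent.helper95.SP.SpecCH
import Pool.Agent.helper10.TP.QM

set_option autoImplicit false

namespace TP.K

open DP MeasureTheory

theorem GP_okmark (x : V) (m : ℕ) : (Dmark 4 x m).ok true x (2 * m) := by
  unfold Dat.ok Dmark
  rw [if_pos rfl]
  refine ⟨?_, ?_⟩
  · rintro i v ⟨hv, -⟩
    have h1 : sd x v = m := hv
    show sd x v ≤ 2 * m
    omega
  · rintro k v (hv | ⟨l, hl, -, hv⟩)
    · have h1 : sd x v < m := hv
      show sd x v ≤ 2 * m
      omega
    · have h1 := sd_triangle x (zpt x m l) v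
      have h2 := SE1_sd_zpt x m l
      show sd x v ≤ 2 * m
      omega

theorem GP_far (x : V) (m : ℕ) (hm : 1 ≤ m) (j : ℕ) (k : Bool) (v : V)
    (hv : sd x v ≤ 512 * m ∨ 4096 * m ≤ sd x v) : v ∉ QM_hull (SE1_reg (QM_all j x m k)) := by
  rintro ⟨w, hw, e⟩
  have hvw := br_eq_sd e
  obtain ⟨l, hl, hk, r, hr1, hr2, hr⟩ := QM_reg_pos hw
  have h6 := SE1_sd_zpt x r l
  have h5 := sd_triangle x w (zpt x r l)
  rw [sd_comm w] at h5
  have h5' := sd_triangle x (zpt x r l) w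
  have h7 := sd_triangle x v w
  have h8 := sd_triangle x w v
  rw [sd_comm w v] at h8
  omega

theorem GP (hGD : GD_stmt) (hC1 : C1_stmt) (hfkg : Bfkg_stmt) (hsq : Bsq_stmt)
    (hgen : Bgen_stmt) (hind : Bindep_stmt) (hmono : Bmono_stmt) (hzero : Bzero_stmt) :
    GP_stmt := by
  obtain ⟨c₀, hc₀, ℓ₀, hℓ₀, hC⟩ := hC1
  have hc₁ : c₀ ≤ 1 := le_trans (hC true (0, 0) ℓ₀ le_rfl) (SE1_Pr_le_one _)
  refine ⟨c₀ ^ 2060 * c₀ ^ 2060, by positivity, ℓ₀ + 10, ?_⟩
  intro x D X Y i n hx hi hin hD hX hY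
  obtain ⟨ρ, hρdef⟩ : ∃ ρ : V → ℝ, ρ = fun _ => 0 := ⟨_, rfl⟩
  have hρ : Profile ρ := by
    intro v
    rw [hρdef]
    norm_num
  have hz : ∀ (F : Set (V → Bool)) (A : Set V), Loc F A → Q ρ F F = Pr F := by
    intro F A hF
    have := hzero ρ F F A hF hF (fun v _ => by rw [hρdef])
    rwa [Set.inter_self] at this
  obtain ⟨m, hmdef⟩ : ∃ m, m = 2 ^ (i - 9) := ⟨_, rfl⟩
  have hm1 : 1 ≤ m := by rw [hmdef]; exact Nat.one_le_two_pow
  have hmℓ : ℓ₀ ≤ m := by
    have h1 : i - 9 < 2 ^ (i - 9) := Nat.lt_two_pow_self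
    rw [hmdef]
    omega
  have e0 : 2 ^ i = 512 * m := by
    rw [hmdef, show (512 : ℕ) = 2 ^ 9 by norm_num, ← pow_add]; congr 1; omega
  have e1 : 2 ^ (i + 1) = 1024 * m := by
    rw [hmdef, show (1024 : ℕ) = 2 ^ 10 by norm_num, ← pow_add]; congr 1; omega
  have e2 : 2 ^ (i + 2) = 2048 * m := by
    rw [hmdef, show (2048 : ℕ) = 2 ^ 11 by norm_num, ← pow_add]; congr 1; omega
  have e3 : 2 ^ (i - 4) = 32 * m := by
    rw [hmdef, show (32 : ℕ) = 2 ^ 5 by norm_num, ← pow_add]; congr 1; omega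
  have e4 : 2 ^ (i - 3) = 64 * m := by
    rw [hmdef, show (64 : ℕ) = 2 ^ 6 by norm_num, ← pow_add]; congr 1; omega
  have e5 : 2 ^ (i + 3) = 4096 * m := by
    rw [hmdef, show (4096 : ℕ) = 2 ^ 12 by norm_num, ← pow_add]; congr 1; omega
  have hpn : 2 ^ (i + 3) ≤ 2 ^ n := Nat.pow_le_pow_right (by norm_num) (by omega)
  have okO : (Dmark 4 x (2048 * m)).ok true x (2 * (2048 * m)) := GP_okmark x _
  set DO := Dmark 4 x (2048 * m) with hDO
  have hSp := QM_Full_loc true (QM_all 4 x m true)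
  have hSm := QM_Full_loc false (QM_all 4 x m false)
  have hI : ∀ k, _ := fun k => QM_MrkC_loc (j := 4) (n := 1024 * m) (y := zpt x (1024 * m))
    (a := 1024 * m / 64) (A := 128 * m) (k := k) hD
  have hO : ∀ k, _ := fun k => QM_MrkC_loc (j := 4) (n := 2 ^ n) (y := zpt x (2 ^ n))
    (a := 2 ^ n / 64) (A := 2 ^ n / 8) (k := k) okO
  set In : Bool → Set (V → Bool) := fun k => Ev fun c => MrkC c 4 true x (1024 * m) D
    (zpt x (1024 * m)) (1024 * m / 64) (128 * m) k with hIn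
  set Ou : Bool → Set (V → Bool) := fun k => Ev fun c => MrkC c 4 true x (2 ^ n) DO
    (zpt x (2 ^ n)) (2 ^ n / 64) (2 ^ n / 8) k with hOu
  have e8 : 1024 * m / 8 = 128 * m := by omega
  have e9 : 2048 * m / 8 = 256 * m := by omega
  have hInS : (Ev fun c => Std c 4 true x (2 ^ (i + 1)) D) = In true ∩ In false := by
    rw [e1]
    ext b
    simp only [hIn, Std, Mrk, Ev, Set.mem_inter_iff, Set.mem_ofPred_eq, e8]
  have hOuS : B4 x (i + 2) n = Ou true ∩ Ou false := by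
    unfold B4
    rw [e2]
    ext b
    simp only [hOu, Std, Mrk, Ev, Set.mem_inter_iff, Set.mem_ofPred_eq, hDO]
  -- positions of the outer arms
  have hOpos : ∀ (k : Bool) (v : V), v ∈ HS true x (2 ^ n) \ (DO.N k ∪ opp 4 (zpt x (2 ^ n)) (2 ^ n / 8) k) →
      v ∈ HS false x (2048 * m) \ (∅ ∪ opp 4 (zpt x (2048 * m)) (256 * m) k) := by
    intro k v hv
    obtain ⟨hv1, hv2⟩ := hv
    have h1 : v ∉ DO.N k := fun h => hv2 (Or.inl h)
    have h2 : ¬ sd x v < 2048 * m := fun h => h1 (Or.inl h)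
    have h3 : v ∉ opp 4 (zpt x (2048 * m)) (256 * m) k := by
      intro h
      apply h1
      rw [← e9] at h
      exact Or.inr h
    refine ⟨?_, ?_⟩
    · show 2048 * m ≤ sd x v
      omega
    · rintro (h | h)
      · exact h
      · exact h3 h
  have hdisj := QM_hull_bdis (QM_bdis 4 x m hm1)
  have hset : X ∩ Y ∩ ((In true ∩ Ou true) ∩ (In false ∩ Ou false)) =
      (X ∩ Ev fun c => Std c 4 true x (2 ^ (i + 1)) D) ∩ (Y ∩ B4 x (i + 2) n) := by
    rw [hInS, hOuS]
    ext b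
    simp only [Set.mem_inter_iff]
    tauto
  have hfarS : ∀ v, sd x v ≤ 512 * m ∨ 4096 * m ≤ sd x v → v ∈ ((QM_hull (SE1_reg (QM_all 4 x m true)) ∪
      QM_hull (SE1_reg (QM_all 4 x m false)))ᶜ) := by
    intro v hv h
    rcases h with h | h
    · exact GP_far x m hm1 4 true v hv h
    · exact GP_far x m hm1 4 false v hv h
  have hXY : Loc (X ∩ Y) ((QM_hull (SE1_reg (QM_all 4 x m true)) ∪
      QM_hull (SE1_reg (QM_all 4 x m false)))ᶜ) := by
    refine (hX.inter hY).mono ?_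
    rintro v (hv | hv)
    · have h1 : sd x v ≤ 2 ^ i := hv
      exact hfarS v (Or.inl (by omega))
    · have h1 : 2 ^ (i + 3) ≤ sd x v := hv.1
      exact hfarS v (Or.inr (by omega))
  have key := hgen ρ (X ∩ Y) (X ∩ Y) (In true ∩ Ou true) (In false ∩ Ou false)
    (Ev fun c => SE1_Full c true (QM_all 4 x m true))
    (Ev fun c => SE1_Full c false (QM_all 4 x m false))
    ((QM_hull (SE1_reg (QM_all 4 x m true)) ∪ QM_hull (SE1_reg (QM_all 4 x m false)))ᶜ)
    (QM_hull (SE1_reg (QM_all 4 x m true))) (QM_hull (SE1_reg (QM_all 4 x m false)))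
    QM_compl_bdis.1 QM_compl_bdis.2
    hdisj hXY hXY
    (by
      refine ((hI true).1.inter (hO true).1).mono ?_
      intro v hv
      have h1 : v ∉ QM_hull (SE1_reg (QM_all 4 x m false)) := by
        rcases hv with hv | hv
        · exact QM_avoid_in' 4 x m hm1 true _ v hv
        · exact QM_avoid_out' 4 x m hm1 true _ v (hOpos true v hv)
      by_cases h2 : v ∈ QM_hull (SE1_reg (QM_all 4 x m true))
      · exact Or.inr h2
      · exact Or.inl fun h => h.elim h2 h1)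
    (by
      refine ((hI false).1.inter (hO false).1).mono ?_
      intro v hv
      have h1 : v ∉ QM_hull (SE1_reg (QM_all 4 x m true)) := by
        rcases hv with hv | hv
        · exact QM_avoid_in' 4 x m hm1 false _ v hv
        · exact QM_avoid_out' 4 x m hm1 false _ v (hOpos false v hv)
      by_cases h2 : v ∈ QM_hull (SE1_reg (QM_all 4 x m false))
      · exact Or.inr h2
      · exact Or.inl fun h => h.elim h1 h2)
    (hSp.1.mono (QM_subset_hull _)) (hSm.1.mono (QM_subset_hull _))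
    ((hI true).2.inter (hO true).2) ((hI false).2.inter (hO false).2) hSp.2 hSm.2
  rw [hset] at key
  -- independence of the inner and the outer part
  have locIn : Loc (X ∩ Ev fun c => Std c 4 true x (2 ^ (i + 1)) D) (box x (1024 * m)) := by
    rw [hInS]
    refine (hX.inter ((hI true).1.inter (hI false).1)).mono ?_
    rintro v (hv | hv | hv)
    · have h1 : sd x v ≤ 2 ^ i := hv
      show sd x v ≤ 1024 * m
      omega
    · exact hv.1
    · exact hv.1
  have locOu : Loc (Y ∩ B4 x (i + 2) n) {v | 2048 * m ≤ sd x v} := by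
    rw [hOuS]
    refine (hY.inter ((hO true).1.inter (hO false).1)).mono ?_
    rintro v (hv | hv | hv)
    · have h1 : 2 ^ (i + 3) ≤ sd x v := hv.1
      show 2048 * m ≤ sd x v
      omega
    · exact (hOpos true v hv).1
    · exact (hOpos false v hv).1
  have hdj : BDis (box x (1024 * m)) {v | 2048 * m ≤ sd x v} := by
    refine BDis.of_sd fun v hv w hw => ?_
    have h1 : sd x v ≤ 1024 * m := hv
    have h2 : 2048 * m ≤ sd x w := hw
    have h3 := sd_triangle x v w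
    omega
  rw [hind ρ _ _ _ _ _ _ hdj locIn locIn locOu locOu, hz _ _ locIn, hz _ _ locOu] at key
  -- the loops
  have hloops : ∀ k : Bool, ∀ e ∈ QM_all 4 x m k, c₀ ≤ Pr (Ev fun c => ∃ S, Loop c k e.1 e.2 S) := by
    intro k e he
    apply hC
    obtain ⟨l, -, -, hal⟩ := QM_all_mem he
    rcases QM_cells_mem hal with rfl | rfl | ⟨t, -, rfl⟩
    · show ℓ₀ ≤ 32 * m
      omega
    · show ℓ₀ ≤ 64 * m
      omega
    · exact hmℓ
  have hP : ∀ k : Bool, c₀ ^ 2060 ≤ Q ρ (Ev fun c => SE1_Full c k (QM_all 4 x m k))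
      (Ev fun c => SE1_Full c k (QM_all 4 x m k)) := by
    intro k
    refine le_trans ?_ (QM_Full_prob hfkg hsq c₀ k ρ (QM_all 4 x m k) hρ hc₀.le (hloops k))
    apply pow_le_pow_of_le_one hc₀.le hc₁
    have := QM_length 4 (Or.inr rfl) x m k
    omega
  -- the inclusion
  have hincl : X ∩ Y ∩ ((In true ∩ Ou true) ∩ (In false ∩ Ou false) ∩
      ((Ev fun c => SE1_Full c true (QM_all 4 x m true)) ∩
        (Ev fun c => SE1_Full c false (QM_all 4 x m false)))) ⊆
      X ∩ (Y ∩ Ev fun c => Std c 4 true x (2 ^ n) D) := by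
    rintro b ⟨⟨hbX, hbY⟩, hbIO, hb3, hb4⟩
    have hb1 : b ∈ Ev fun c => Std c 4 true x (2 ^ (i + 1)) D := by
      rw [hInS]; exact ⟨hbIO.1.1, hbIO.2.1⟩
    have hb2 : b ∈ B4 x (i + 2) n := by
      rw [hOuS]; exact ⟨hbIO.1.2, hbIO.2.2⟩
    have hfull : ∀ l < 4, ∀ e ∈ QM_cells x m l, ∃ S, Loop (col b) (kol l) e.1 e.2 S := by
      intro l hl e he
      cases hk : kol l
      · exact hb4 e (QM_mem_all hl hk he)
      · exact hb3 e (QM_mem_all hl hk he)
    refine ⟨hbX, hbY, ?_⟩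
    refine hGD (col b) 4 x D i (2 ^ n) (fun l => QM_gs x m l) (Or.inr rfl) hx (by omega) hpn hD
      hb1 hb2 fun l hl => ⟨?_, ?_, ?_, ?_⟩
    · have := hfull l hl (zpt x (1024 * m) l, 32 * m) (by simp [QM_cells])
      rw [e1, e3]; exact this
    · have := hfull l hl (zpt x (2048 * m) l, 64 * m) (by simp [QM_cells])
      rw [e2, e4]; exact this
    · rw [e1, ← hmdef]; rfl
    · rw [← hmdef]
      intro g hg
      exact hfull l hl (g, m) (by
        unfold QM_cells
        exact List.mem_cons_of_mem _ (List.mem_cons_of_mem _ (List.mem_map.2 ⟨g, hg, rfl⟩)))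
  have hmn := hmono ρ _ _ _ _ hincl hincl
  have locR : Loc (X ∩ (Y ∩ Ev fun c => Std c 4 true x (2 ^ n) D)) Set.univ := by
    have h1 : ∀ k, _ := fun k => QM_MrkC_loc (j := 4) (n := 2 ^ n) (y := zpt x (2 ^ n))
      (a := 2 ^ n / 64) (A := 2 ^ n / 8) (k := k) hD
    have h2 : (Ev fun c => Std c 4 true x (2 ^ n) D) =
        (Ev fun c => MrkC c 4 true x (2 ^ n) D (zpt x (2 ^ n)) (2 ^ n / 64) (2 ^ n / 8) true) ∩
        (Ev fun c => MrkC c 4 true x (2 ^ n) D (zpt x (2 ^ n)) (2 ^ n / 64) (2 ^ n / 8) false) := rfl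
    rw [h2]
    exact (hX.inter (hY.inter ((h1 true).1.inter (h1 false).1))).mono (Set.subset_univ _)
  rw [hz _ _ locR] at hmn
  rw [mul_comm]
  refine le_trans ?_ (key.trans hmn)
  have hc2 : 0 ≤ c₀ ^ 2060 := by positivity
  have hPr : ∀ F, 0 ≤ Pr F := fun F => MeasureTheory.measureReal_nonneg
  exact mul_le_mul_of_nonneg_left (mul_le_mul (hP true) (hP false) hc2 (hc2.trans (hP true)))
    (mul_nonneg (hPr _) (hPr _))

end TP.K
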